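import Mathlib

/-!
# Algebra of the surface `3 Y^2 = z W(z, Y, m)`
-/

namespace Pool.Agent.T9h64.CS

/-- the second factor -/
def W (z Y m : ℂ) : ℂ :=
  4 * m + 2 * (4 + 3 * Y) * (z * m - 1) + z * (z * m - 1) ^ 2 - 4 * (1 + Y) ^ 3

/-- first plane coordinate -/
noncomputable def U (z Y m : ℂ) : ℂ := 1 + z * ((4 + 3 * Y + z * (z * m - 1)) / 2)

/-- second plane coordinate -/
def V (z Y : ℂ) : ℂ := 1 + z * (1 + Y)

theorem key (z Y m : ℂ) :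
    U z Y m ^ 2 - V z Y ^ 3 = z - z ^ 2 * (3 * Y ^ 2 - z * W z Y m) / 4 := by
  unfold U V W; ring

theorem U_eq {z Y m : ℂ} (h : 3 * Y ^ 2 = z * W z Y m) : U z Y m ^ 2 - V z Y ^ 3 = z := by
  rw [key, h]; ring

theorem mem_of_key {z Y m : ℂ} (hz : z ≠ 0) (h : U z Y m ^ 2 - V z Y ^ 3 = z) :
    3 * Y ^ 2 = z * W z Y m := by
  rw [key] at h
  have h2 : z ^ 2 * (3 * Y ^ 2 - z * W z Y m) = 0 := by linear_combination -4 * h
  have h3 := (mul_eq_zero.mp h2).resolve_left (pow_ne_zero 2 hz)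
  linear_combination h3

/-- `v ^ 2 - u` is divisible by `z` -/
theorem V_sq_sub (z Y m : ℂ) :
    V z Y ^ 2 - U z Y m = z * (Y / 2 + z * ((1 + Y) ^ 2 - (z * m - 1) / 2)) := by
  unfold U V; ring

/-! ### The inverse map on `z ≠ 0` -/

/-- `z` in terms of the plane coordinates -/
def Z (q : ℂ × ℂ) : ℂ := q.1 ^ 2 - q.2 ^ 3

/-- `Y` in terms of the plane coordinates -/
noncomputable def RY (q : ℂ × ℂ) : ℂ := (q.2 - 1) / Z q - 1

/-- `m` in terms of the plane coordinates -/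
noncomputable def RM (q : ℂ × ℂ) : ℂ := ((2 * (q.1 - 1) / Z q - 4 - 3 * RY q) / Z q + 1) / Z q

theorem V_R {q : ℂ × ℂ} (h : Z q ≠ 0) : V (Z q) (RY q) = q.2 := by
  unfold V RY; field_simp; ring

theorem U_R {q : ℂ × ℂ} (h : Z q ≠ 0) : U (Z q) (RY q) (RM q) = q.1 := by
  unfold U RM; field_simp; ring

theorem R_mem {q : ℂ × ℂ} (h : Z q ≠ 0) : 3 * RY q ^ 2 = Z q * W (Z q) (RY q) (RM q) := by
  refine mem_of_key h ?_
  rw [U_R h, V_R h]; rfl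

theorem RY_of {z Y m : ℂ} (hz : z ≠ 0) (h : 3 * Y ^ 2 = z * W z Y m) :
    RY (U z Y m, V z Y) = Y := by
  have h1 : Z (U z Y m, V z Y) = z := U_eq h
  unfold RY; rw [h1]; unfold V; field_simp; ring

theorem RM_of {z Y m : ℂ} (hz : z ≠ 0) (h : 3 * Y ^ 2 = z * W z Y m) :
    RM (U z Y m, V z Y) = m := by
  have h1 : Z (U z Y m, V z Y) = z := U_eq h
  unfold RM; rw [RY_of hz h, h1]; unfold U; field_simp; ring

/-! ### The maps `Θ` -/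

/-- `δ` -/
def De (z Y d1 d2 : ℂ) : ℂ := Y * d1 + z * d2

/-- `λ` -/
def La (z Y d1 d2 : ℂ) : ℂ := 1 - z * De z Y d1 d2

/-- numerator of the new `Y` -/
def TY (z Y d l : ℂ) : ℂ :=
  l ^ 2 * Y - 2 * d + z * (d ^ 2 + l ^ 2 * d * (1 + l) * (1 + l ^ 2))

/-- auxiliary quotient -/
def TQ (Y d l : ℂ) : ℂ :=
  2 * d ^ 2 - 3 * d * (1 + Y) * (1 + l) + (d - 1) * (1 + l + l ^ 2) +
    d * (1 + l + l ^ 2 + l ^ 3) + d * (1 + l + l ^ 2 + l ^ 3 + l ^ 4) +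
    (1 + l + l ^ 2 + l ^ 3 + l ^ 4 + l ^ 5 + l ^ 6 + l ^ 7 + l ^ 8 + l ^ 9 + l ^ 10 + l ^ 11)

/-- numerator of the new `m` -/
def TM (z Y m d1 d2 d l : ℂ) : ℂ :=
  m * l ^ 3 - d * TQ Y d l +
    (W z Y m * d1 * (d1 - 1) + 3 * Y * d1 * d2 + 3 * Y * d2 * (d1 - 1) + 3 * z * d2 ^ 2)

theorem TM_eq {z Y m d1 d2 d l : ℂ} (h : 3 * Y ^ 2 = z * W z Y m)
    (hd : d = Y * d1 + z * d2) (hl : l = 1 - z * d) :
    z * TM z Y m d1 d2 d l = z * m * l ^ 3 + (d ^ 2 + 2 * d ^ 2 * l - 3 * d * (1 + Y) * l ^ 2 +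
      (d - 1) * l ^ 3 + d * l ^ 4 + d * l ^ 5 + l ^ 12) := by
  have e1 : z * (W z Y m * d1 * (d1 - 1) + 3 * Y * d1 * d2 + 3 * Y * d2 * (d1 - 1) +
      3 * z * d2 ^ 2) = 3 * d * (d - Y) := by
    subst hd; linear_combination (-d1 * (d1 - 1)) * h
  have e2 : -(z * d) * TQ Y d l = (d ^ 2 + 2 * d ^ 2 * l - 3 * d * (1 + Y) * l ^ 2 +
      (d - 1) * l ^ 3 + d * l ^ 4 + d * l ^ 5 + l ^ 12) - 3 * d * (d - Y) := by
    have : -(z * d) = l - 1 := by rw [hl]; ring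
    rw [this]; unfold TQ; ring
  unfold TM
  linear_combination e1 + e2

theorem V_theta {z Y d l : ℂ} (hl0 : l ≠ 0) (hl : l = 1 - z * d) :
    V (l ^ 6 * z) (TY z Y d l / l ^ 6) = l ^ 2 * V z Y := by
  have e1 : V (l ^ 6 * z) (TY z Y d l / l ^ 6) = 1 + l ^ 6 * z + z * TY z Y d l := by
    unfold V; field_simp; ring
  rw [e1]; unfold V TY; subst hl; ring

theorem U_theta {z Y m d1 d2 d l : ℂ} (hl0 : l ≠ 0) (h : 3 * Y ^ 2 = z * W z Y m)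
    (hd : d = Y * d1 + z * d2) (hl : l = 1 - z * d) :
    U (l ^ 6 * z) (TY z Y d l / l ^ 6) (TM z Y m d1 d2 d l / l ^ 18) = l ^ 3 * U z Y m := by
  have e1 : U (l ^ 6 * z) (TY z Y d l / l ^ 6) (TM z Y m d1 d2 d l / l ^ 18) =
      1 + (4 * l ^ 6 * z + 3 * z * TY z Y d l + z ^ 2 * (z * TM z Y m d1 d2 d l) -
        l ^ 12 * z ^ 2) / 2 := by
    unfold U; field_simp; ring
  rw [e1, TM_eq h hd hl]; unfold U TY; subst hl; ring

theorem theta_mem {z Y m d1 d2 d l : ℂ} (hl0 : l ≠ 0) (h : 3 * Y ^ 2 = z * W z Y m)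
    (hd : d = Y * d1 + z * d2) (hl : l = 1 - z * d) :
    3 * (TY z Y d l / l ^ 6) ^ 2 =
      l ^ 6 * z * W (l ^ 6 * z) (TY z Y d l / l ^ 6) (TM z Y m d1 d2 d l / l ^ 18) := by
  by_cases hz : z = 0
  · subst hz
    have hY : Y = 0 := by
      have : Y ^ 2 = 0 := by linear_combination h / 3
      exact pow_eq_zero_iff two_ne_zero |>.mp this
    subst hY
    have : d = 0 := by rw [hd]; ring
    subst this
    simp [TY]
  · refine mem_of_key (mul_ne_zero (pow_ne_zero _ hl0) hz) ?_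
    rw [U_theta hl0 h hd hl, V_theta hl0 hl]
    linear_combination (l ^ 6) * U_eq h

/-! ### The section `(w ^ 2, w)` -/

theorem Z_sec (w : ℂ) : Z (w ^ 2, w) = w ^ 3 * (w - 1) := by
  unfold Z; ring

theorem RY_sec {w : ℂ} (h0 : w ≠ 0) (h1 : w - 1 ≠ 0) : RY (w ^ 2, w) = 1 / w ^ 3 - 1 := by
  unfold RY; rw [Z_sec]; field_simp

theorem RM_sec {w : ℂ} (h0 : w ≠ 0) (h1 : w - 1 ≠ 0) :
    RM (w ^ 2, w) = (w ^ 5 + w ^ 4 + w ^ 3 + w ^ 2 - 1) / w ^ 9 := by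
  unfold RM; rw [Z_sec, RY_sec h0 h1]; field_simp; ring

end Pool.Agent.T9h64.CS
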