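import Mathlib

/-!
# There is no polynomial curve on the surface through the singular point, other than in `z = 0`
-/

open Polynomial UniqueFactorizationMonoid

namespace Pool.Agent.T9h64.CS

/-- a polynomial without zeros in common with another one is coprime to it -/
theorem coprime_of (p q : ℂ[X]) (h : ∀ a : ℂ, p.eval a = 0 → q.eval a = 0 → False) :
    IsCoprime p q := by
  refine (Polynomial.isCoprime_iff_aeval_ne_zero_of_isAlgClosed ℂ ℂ p q).mpr fun a => ?_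
  by_contra hcon
  push Not at hcon
  simp only [Polynomial.coe_aeval_eq_eval] at hcon
  exact h a hcon.1 hcon.2

/-- coprime factors of a square are squares -/
theorem square_of (p q r : ℂ[X]) (hpq : IsCoprime p q) (h : p * q = r ^ 2) :
    ∃ d : ℂ[X], p = d ^ 2 := by
  obtain ⟨d, hd⟩ := exists_associated_pow_of_mul_eq_pow' hpq h
  obtain ⟨u, hu⟩ := hd
  obtain ⟨a, _, ha2⟩ := Polynomial.isUnit_iff.mp u.isUnit
  obtain ⟨b, hb⟩ := IsAlgClosed.exists_pow_nat_eq a (n := 2) (by norm_num)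
  refine ⟨d * C b, ?_⟩
  rw [← hu, ← ha2, ← hb, C_pow]; ring

/-- Mason-Stothers for `U ^ 2 - V ^ 3 = e ^ 2` -/
theorem abc_app (U V e : ℂ[X]) (hU : U ≠ 0) (hV : V ≠ 0) (he : e ≠ 0)
    (hcop : IsCoprime e V) (h : U ^ 2 - V ^ 3 = e ^ 2) (hdeg : 2 * e.natDegree ≤ V.natDegree)
    (he0 : 1 ≤ e.natDegree) : False := by
  have habc := Polynomial.abc (a := e ^ 2) (b := V ^ 3) (c := -U ^ 2) (pow_ne_zero _ he)
    (pow_ne_zero _ hV) (neg_ne_zero.mpr (pow_ne_zero _ hU)) (hcop.pow) (by rw [← h]; ring)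
  have hne : e ^ 2 * V ^ 3 * -U ^ 2 ≠ 0 :=
    mul_ne_zero (mul_ne_zero (pow_ne_zero _ he) (pow_ne_zero _ hV))
      (neg_ne_zero.mpr (pow_ne_zero _ hU))
  have hrad : radical (e ^ 2 * V ^ 3 * -U ^ 2) ∣ e * V * U := by
    rw [← exists_dvd_pow_iff_radical_dvd hne]
    exact ⟨3, ⟨-e * U, by ring⟩⟩
  have hprod : e * V * U ≠ 0 := mul_ne_zero (mul_ne_zero he hV) hU
  have hd := Polynomial.natDegree_le_of_dvd hrad hprod
  rw [natDegree_mul (mul_ne_zero he hV) hU, natDegree_mul he hV] at hd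
  rcases habc with ⟨h1, h2, h3⟩ | ⟨h1, _, _⟩
  · rw [natDegree_pow] at h1 h2
    rw [natDegree_neg, natDegree_pow] at h3
    omega
  · have h4 := derivative_eq_zero.mp h1
    rw [natDegree_pow] at h4
    omega

theorem no_curve (z Y m : ℂ[X])
    (h : 3 * Y ^ 2 = z * (4 * m + 2 * (4 + 3 * Y) * (z * m - 1) + z * (z * m - 1) ^ 2 -
      4 * (1 + Y) ^ 3))
    (hz0 : z.eval 0 = 0) (hY0 : Y.eval 0 = 0) (hz : z ≠ 0)
    (hne : ∀ t : ℂ, t ≠ 0 → ¬ (z.eval t = 0 ∧ Y.eval t = 0 ∧ m.eval t = 3)) : False := by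
  obtain ⟨w, hw⟩ : ∃ w : ℂ[X], w = 4 * m + 2 * (4 + 3 * Y) * (z * m - 1) + z * (z * m - 1) ^ 2 -
      4 * (1 + Y) ^ 3 := ⟨_, rfl⟩
  rw [← hw] at h
  obtain ⟨z1, hz1, hz1'⟩ := z.exists_eq_pow_rootMultiplicity_mul_and_not_dvd hz 0
  obtain ⟨n, hn⟩ : ∃ n, n = z.rootMultiplicity 0 := ⟨_, rfl⟩
  rw [← hn, C_0, sub_zero] at hz1
  have hz10 : z1.eval 0 ≠ 0 := by
    intro h0
    exact hz1' (dvd_iff_isRoot.mpr h0)
  have hz1ne : z1 ≠ 0 := by rintro rfl; simp at hz10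
  -- `z1` is a square
  obtain ⟨c, hc⟩ := IsAlgClosed.exists_pow_nat_eq (3 : ℂ) (n := 2) (by norm_num)
  have hc' : (C c : ℂ[X]) ^ 2 = 3 := by rw [← C_pow, hc]; rfl
  have hcop1 : IsCoprime z1 (X ^ n * w) := by
    refine coprime_of _ _ fun a ha hb => ?_
    have ha0 : a ≠ 0 := by rintro rfl; exact hz10 ha
    rw [eval_mul, eval_pow, eval_X] at hb
    have hwa : w.eval a = 0 := (mul_eq_zero.mp hb).resolve_left (pow_ne_zero _ ha0)
    have hza : z.eval a = 0 := by rw [hz1, eval_mul, ha, mul_zero]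
    have hYa : Y.eval a = 0 := by
      have := congrArg (Polynomial.eval a) h
      rw [eval_mul, eval_mul, hza, zero_mul, eval_pow] at this
      simpa using this
    refine hne a ha0 ⟨hza, hYa, ?_⟩
    rw [hw] at hwa
    simp only [eval_sub, eval_add, eval_mul, eval_pow, hza, hYa, eval_ofNat, eval_one] at hwa
    linear_combination hwa / 4
  have hsq : z1 * (X ^ n * w) = (C c * Y) ^ 2 := by
    rw [mul_pow, hc', h, hz1]; ring
  obtain ⟨d, hd⟩ := square_of z1 (X ^ n * w) (C c * Y) hcop1 hsq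
  -- substitute
  obtain ⟨e, he⟩ : ∃ e : ℂ[X], e = X ^ n * d.comp (X ^ 2) := ⟨_, rfl⟩
  have hez : e ^ 2 = z.comp (X ^ 2) := by
    rw [he, hz1, hd, mul_comp, pow_comp, X_comp, pow_comp]; ring
  have hene : e ≠ 0 := by
    intro h0
    rw [h0] at hez
    have : z.comp (X ^ 2) = 0 := by rw [← hez]; ring
    rw [Polynomial.comp_eq_zero_iff] at this
    rcases this with h1 | ⟨_, h1⟩
    · exact hz h1
    · have := congrArg natDegree h1
      rw [natDegree_pow, natDegree_X, natDegree_C] at this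
      omega
  obtain ⟨U, hU⟩ : ∃ U : ℂ[X], U = 1 + z.comp (X ^ 2) * (C (1 / 2) *
      (4 + 3 * Y.comp (X ^ 2) + z.comp (X ^ 2) * (z.comp (X ^ 2) * m.comp (X ^ 2) - 1))) :=
    ⟨_, rfl⟩
  obtain ⟨V, hV⟩ : ∃ V : ℂ[X], V = 1 + z.comp (X ^ 2) * (1 + Y.comp (X ^ 2)) := ⟨_, rfl⟩
  have hcomp : 3 * Y.comp (X ^ 2) ^ 2 = z.comp (X ^ 2) * (4 * m.comp (X ^ 2) +
      2 * (4 + 3 * Y.comp (X ^ 2)) * (z.comp (X ^ 2) * m.comp (X ^ 2) - 1) +
      z.comp (X ^ 2) * (z.comp (X ^ 2) * m.comp (X ^ 2) - 1) ^ 2 -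
      4 * (1 + Y.comp (X ^ 2)) ^ 3) := by
    have := congrArg (fun p => Polynomial.comp p (X ^ 2)) h
    rw [hw] at this
    simpa only [mul_comp, add_comp, sub_comp, pow_comp, ofNat_comp, one_comp,
      Nat.cast_ofNat] using this
  have h2 : (C (1 / 2) : ℂ[X]) * 2 = 1 := by
    have : (2 : ℂ[X]) = C 2 := rfl
    rw [this, ← C_mul]; norm_num
  have hUV : U ^ 2 - V ^ 3 = e ^ 2 := by
    rw [hez, hU, hV]
    generalize z.comp (X ^ 2) = z' at *
    generalize Y.comp (X ^ 2) = Y' at *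
    generalize m.comp (X ^ 2) = m' at *
    have h4 : (C (1 / 2) : ℂ[X]) ^ 2 * 4 = 1 := by
      linear_combination (C (1 / 2) * 2 + 1) * h2
    have e1 : (1 + z' * (C (1 / 2) * (4 + 3 * Y' + z' * (z' * m' - 1)))) ^ 2 =
        1 + z' * (4 + 3 * Y' + z' * (z' * m' - 1)) +
          C (1 / 2) ^ 2 * z' ^ 2 * (4 + 3 * Y' + z' * (z' * m' - 1)) ^ 2 := by
      linear_combination (z' * (4 + 3 * Y' + z' * (z' * m' - 1))) * h2
    have e2 : C (1 / 2) ^ 2 * z' ^ 2 * (4 + 3 * Y' + z' * (z' * m' - 1)) ^ 2 =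
        z' * (- (4 + 3 * Y' + z' * (z' * m' - 1)) + 1) + (1 + z' * (1 + Y')) ^ 3 - 1 := by
      linear_combination (-C (1 / 2) ^ 2 * z' ^ 2) * hcomp + (z' ^ 2 * (-(z' * m' - 1) +
        3 * (1 + Y') ^ 2 + z' * (1 + Y') ^ 3)) * h4
    rw [e1, e2]; ring
  have hev : ∀ t : ℂ, (e.eval t) ^ 2 = z.eval (t ^ 2) := by
    intro t
    have := congrArg (Polynomial.eval t) hez
    rw [eval_pow, eval_comp, eval_pow, eval_X] at this
    exact this
  have he00 : e.eval 0 = 0 := by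
    have := hev 0
    rw [zero_pow two_ne_zero, hz0] at this
    exact pow_eq_zero_iff two_ne_zero |>.mp this
  have hcop : IsCoprime e V := by
    refine coprime_of _ _ fun a ha hb => ?_
    have h3 := hev a
    rw [ha, zero_pow two_ne_zero] at h3
    rw [hV] at hb
    simp only [eval_add, eval_mul, eval_comp, eval_pow, eval_X, eval_one, ← h3] at hb
    simp at hb
  have hU0 : U ≠ 0 := by
    intro h0
    have := congrArg (Polynomial.eval 0) h0
    rw [hU] at this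
    simp [eval_comp, hz0] at this
  have hV0 : V ≠ 0 := by
    intro h0
    have := congrArg (Polynomial.eval 0) h0
    rw [hV] at this
    simp [eval_comp, hz0] at this
  have h1Y : (1 + Y.comp (X ^ 2) : ℂ[X]) ≠ 0 := by
    intro h0
    have := congrArg (Polynomial.eval 0) h0
    simp [eval_comp, hY0] at this
  have hVe : V - 1 = e ^ 2 * (1 + Y.comp (X ^ 2)) := by rw [hV, hez]; ring
  have hdeg : 2 * e.natDegree ≤ V.natDegree := by
    have h5 : (V - 1).natDegree ≤ V.natDegree := by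
      refine (natDegree_sub_le _ _).trans ?_
      rw [natDegree_one]; simp
    rw [hVe, natDegree_mul (pow_ne_zero _ hene) h1Y, natDegree_pow] at h5
    omega
  refine abc_app U V e hU0 hV0 hene hcop hUV hdeg ?_
  by_contra hcon
  have h6 : e.natDegree = 0 := by omega
  rw [natDegree_eq_zero] at h6
  obtain ⟨a, ha⟩ := h6
  rw [← ha, eval_C] at he00
  exact hene (by rw [← ha, he00, C_0])

end Pool.Agent.T9h64.CS
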