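import Pool.Agent.T9h64.CS.Alg

/-!
# The cut plane and the cut-off functions
-/

open Filter Topology ComplexConjugate

namespace Pool.Agent.T9h64.CS

/-- the cut: the half `t ≤ 0` of the real points of the cuspidal cubic -/
def Cut : Set (ℂ × ℂ) := {q | ∃ s : ℝ, 0 ≤ s ∧ q.1 = -(s : ℂ) ^ 3 ∧ q.2 = (s : ℂ) ^ 2}

/-- vanishes exactly where `q.1 / q.2 ^ 2` is not in the slit plane -/
noncomputable def be (q : ℂ × ℂ) : ℝ := ‖q.2 ^ 2 * conj q.1‖ + (q.2 ^ 2 * conj q.1).re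

theorem be_nonneg (q : ℂ × ℂ) : 0 ≤ be q := by
  unfold be
  have := (abs_le.mp (Complex.abs_re_le_norm (q.2 ^ 2 * conj q.1))).1
  linarith

theorem be_cont : Continuous be := by
  unfold be
  have h : Continuous fun q : ℂ × ℂ => q.2 ^ 2 * conj q.1 :=
    (continuous_snd.pow 2).mul (Complex.continuous_conj.comp continuous_fst)
  exact h.norm.add (Complex.continuous_re.comp h)

theorem Z_cont : Continuous Z := by
  unfold Z; exact (continuous_fst.pow 2).sub (continuous_snd.pow 3)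

/-- a real number `r ≥ 0` with `x = -r` when `‖x‖ + re x = 0` -/
theorem neg_of_norm_add_re {x : ℂ} (h : ‖x‖ + x.re = 0) : x = -((‖x‖ : ℝ) : ℂ) := by
  have h1 : x.re = -‖x‖ := by linarith
  have h2 : x.im = 0 := by
    have h3 := Complex.sq_norm x
    rw [Complex.normSq_apply, h1] at h3
    have : x.im * x.im = 0 := by nlinarith
    exact mul_self_eq_zero.mp this
  apply Complex.ext
  · simp [h1]
  · simp [h2]

/-- on the curve, `be` vanishes only on the cut -/
theorem mem_Cut {q : ℂ × ℂ} (hb : be q = 0) (hz : Z q = 0) : q ∈ Cut := by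
  obtain ⟨u, v⟩ := q
  have hz' : u ^ 2 = v ^ 3 := by
    have : u ^ 2 - v ^ 3 = 0 := hz
    linear_combination this
  by_cases hv : v = 0
  · subst hv
    have hu : u = 0 := by
      have : u ^ 2 = 0 := by rw [hz']; ring
      exact pow_eq_zero_iff two_ne_zero |>.mp this
    subst hu
    exact ⟨0, le_rfl, by simp, by simp⟩
  · obtain ⟨t, ht⟩ : ∃ t, t = u / v := ⟨_, rfl⟩
    have h2 : v = t ^ 2 := by
      rw [ht, div_pow, hz']; field_simp
    have h3 : u = t ^ 3 := by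
      have : u = t * v := by rw [ht]; field_simp
      rw [this]; nth_rewrite 1 [h2]; ring
    have ht0 : t ≠ 0 := by
      intro h; rw [h] at h2; exact hv (by rw [h2]; ring)
    have hb' : ‖v ^ 2 * conj u‖ + (v ^ 2 * conj u).re = 0 := hb
    have h4 := neg_of_norm_add_re hb'
    have h5 : v ^ 2 * conj u = t * ((‖t‖ ^ 6 : ℝ) : ℂ) := by
      have h6 : t * conj t = ((‖t‖ ^ 2 : ℝ) : ℂ) := by
        rw [Complex.mul_conj, Complex.normSq_eq_norm_sq]
      have h7 : ((‖t‖ ^ 6 : ℝ) : ℂ) = (t * conj t) ^ 3 := by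
        rw [h6]; push_cast; ring
      rw [h7, h2, h3, map_pow]; ring
    rw [h5] at h4
    have hn : (0 : ℝ) < ‖t‖ := norm_pos_iff.mpr ht0
    obtain ⟨s, hs0, hs⟩ : ∃ s : ℝ, 0 ≤ s ∧ t = -(s : ℂ) := by
      refine ⟨‖t * ((‖t‖ ^ 6 : ℝ) : ℂ)‖ / ‖t‖ ^ 6, by positivity, ?_⟩
      have hne : ((‖t‖ ^ 6 : ℝ) : ℂ) ≠ 0 := by
        exact_mod_cast (pow_pos hn 6).ne'
      have : t = -((‖t * ((‖t‖ ^ 6 : ℝ) : ℂ)‖ : ℝ) : ℂ) / ((‖t‖ ^ 6 : ℝ) : ℂ) := by
        rw [eq_div_iff hne]; exact h4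
      rw [Complex.ofReal_div, ← neg_div]
      exact this
    refine ⟨s, hs0, ?_, ?_⟩
    · show u = -(s : ℂ) ^ 3
      rw [h3, hs]; ring
    · show v = (s : ℂ) ^ 2
      rw [h2, hs]; ring

/-- in the good region the segment from `1` to `u / v ^ 2` avoids `0` -/
theorem segment_ne {u v : ℂ} (hb : be (u, v) ≠ 0) {s : ℝ} (hs0 : 0 ≤ s) (hs1 : s ≤ 1) :
    1 + (s : ℂ) * (u / v ^ 2 - 1) ≠ 0 := by
  have hv : v ≠ 0 := by
    rintro rfl; apply hb; simp [be]
  intro h
  have h1 : (1 - (s : ℂ)) * v ^ 2 + s * u = 0 := by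
    have : (1 + (s : ℂ) * (u / v ^ 2 - 1)) * v ^ 2 = 0 := by rw [h]; ring
    field_simp at this
    linear_combination this
  have hs : s ≠ 0 := by
    rintro rfl
    simp at h1
    exact hv h1
  have hsC : (s : ℂ) ≠ 0 := by exact_mod_cast hs
  have h2 : u = -(((1 - s) / s : ℝ) : ℂ) * v ^ 2 := by
    push_cast
    field_simp
    linear_combination h1
  have hr : 0 ≤ (1 - s) / s := div_nonneg (by linarith) hs0
  obtain ⟨r, hr'⟩ : ∃ r, r = (1 - s) / s := ⟨_, rfl⟩
  rw [← hr'] at h2 hr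
  apply hb
  have h3 : v ^ 2 * conj u = ((-(r * ‖v‖ ^ 4) : ℝ) : ℂ) := by
    have h6 : v * conj v = ((‖v‖ ^ 2 : ℝ) : ℂ) := by
      rw [Complex.mul_conj, Complex.normSq_eq_norm_sq]
    have h7 : ((-(r * ‖v‖ ^ 4) : ℝ) : ℂ) = -(r : ℂ) * (v * conj v) ^ 2 := by
      rw [h6]; push_cast; ring
    rw [h7, h2, map_mul, map_neg, Complex.conj_ofReal, map_pow]; ring
  have hx : (0:ℝ) ≤ r * ‖v‖ ^ 4 := by positivity
  show ‖v ^ 2 * conj u‖ + (v ^ 2 * conj u).re = 0
  rw [h3, Complex.norm_real, Complex.ofReal_re, norm_neg, Real.norm_of_nonneg hx]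
  ring

/-- numerator of the cut-off -/
noncomputable def cA (q : ℂ × ℂ) : ℝ := max 0 (2 * be q - ‖Z q‖)

/-- the other part of the denominator of the cut-off -/
noncomputable def cB (q : ℂ × ℂ) : ℝ := max 0 (‖Z q‖ - be q)

theorem cA_cont : Continuous cA :=
  continuous_const.max ((continuous_const.mul be_cont).sub Z_cont.norm)

theorem cB_cont : Continuous cB :=
  continuous_const.max (Z_cont.norm.sub be_cont)

theorem cA_nonneg (q) : 0 ≤ cA q := le_max_left _ _

theorem cB_nonneg (q) : 0 ≤ cB q := le_max_left _ _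

theorem cAB_pos {q : ℂ × ℂ} (h : q ∉ Cut) : 0 < cA q + cB q := by
  by_contra hcon
  have h1 := cA_nonneg q
  have h2 := cB_nonneg q
  have h3 : cA q = 0 := by linarith
  have h4 : cB q = 0 := by linarith
  have h5 : 2 * be q - ‖Z q‖ ≤ 0 := by rw [← h3]; exact le_max_right _ _
  have h6 : ‖Z q‖ - be q ≤ 0 := by rw [← h4]; exact le_max_right _ _
  have h7 := be_nonneg q
  have h8 := norm_nonneg (Z q)
  have h9 : be q = 0 := by linarith
  have h10 : ‖Z q‖ = 0 := by linarith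
  exact h (mem_Cut h9 (norm_eq_zero.mp h10))

/-- the cut-off -/
noncomputable def chi (q : ℂ × ℂ) : ℝ := cA q / (cA q + cB q)

theorem chi_cont {q : ℂ × ℂ} (h : q ∉ Cut) : ContinuousAt chi q :=
  cA_cont.continuousAt.div (cA_cont.add cB_cont).continuousAt (cAB_pos h).ne'

theorem chi_nonneg (q) : 0 ≤ chi q :=
  div_nonneg (cA_nonneg q) (add_nonneg (cA_nonneg q) (cB_nonneg q))

theorem chi_le_one (q) : chi q ≤ 1 :=
  div_le_one_of_le₀ (by linarith [cB_nonneg q]) (add_nonneg (cA_nonneg q) (cB_nonneg q))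

theorem chi_eq_zero {q : ℂ × ℂ} (h : 2 * be q - ‖Z q‖ < 0) : chi q = 0 := by
  unfold chi cA; rw [max_eq_left h.le]; simp

theorem chi_eq_one {q : ℂ × ℂ} (h : ‖Z q‖ - be q < 0) : chi q = 1 := by
  have h1 : cB q = 0 := max_eq_left h.le
  have h2 : 0 < cA q := by
    have := norm_nonneg (Z q)
    exact lt_max_of_lt_right (by linarith)
  unfold chi; rw [h1, add_zero, div_self h2.ne']

theorem chi_zero_of_be {q : ℂ × ℂ} (h : be q = 0) : chi q = 0 := by
  unfold chi cA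
  rw [max_eq_left (by have := norm_nonneg (Z q); linarith)]
  simp

theorem chi_event_zero {q : ℂ × ℂ} (h : q ∉ Cut) (hb : be q = 0) : ∀ᶠ q' in 𝓝 q, chi q' = 0 := by
  have hz : Z q ≠ 0 := fun hz => h (mem_Cut hb hz)
  have h1 : 2 * be q - ‖Z q‖ < 0 := by
    have := norm_pos_iff.mpr hz
    linarith
  have h2 : Continuous fun q => 2 * be q - ‖Z q‖ := (continuous_const.mul be_cont).sub Z_cont.norm
  filter_upwards [h2.continuousAt.eventually_lt_const h1] with q' hq'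
  exact chi_eq_zero hq'

theorem be_pos_of {q : ℂ × ℂ} (h : q ∉ Cut) (hz : Z q = 0) : 0 < be q :=
  lt_of_le_of_ne (be_nonneg q) fun hb => h (mem_Cut hb.symm hz)

theorem chi_event_one {q : ℂ × ℂ} (h : q ∉ Cut) (hz : Z q = 0) : ∀ᶠ q' in 𝓝 q, chi q' = 1 := by
  have hb := be_pos_of h hz
  have h1 : ‖Z q‖ - be q < 0 := by rw [hz, norm_zero]; linarith
  have h2 : Continuous fun q => ‖Z q‖ - be q := Z_cont.norm.sub be_cont
  filter_upwards [h2.continuousAt.eventually_lt_const h1] with q' hq'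
  exact chi_eq_one hq'

/-- `chi / v ^ 2` -/
noncomputable def gg (q : ℂ × ℂ) : ℂ := (chi q : ℂ) / q.2 ^ 2

theorem gg_cont {q : ℂ × ℂ} (h : q ∉ Cut) : ContinuousAt gg q := by
  by_cases hb : be q = 0
  · have h1 : gg =ᶠ[𝓝 q] fun _ => 0 := by
      filter_upwards [chi_event_zero h hb] with q' hq'
      simp [gg, hq']
    exact h1.continuousAt
  · have hv : q.2 ≠ 0 := by
      intro hv; apply hb; simp [be, hv]
    unfold gg
    exact (Complex.continuous_ofReal.continuousAt.comp (chi_cont h)).div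
      (continuous_snd.pow 2).continuousAt (pow_ne_zero 2 hv)

/-- the multiplier -/
noncomputable def lam (s : ℝ) (q : ℂ × ℂ) : ℂ := 1 + s * (gg q * q.1 - chi q)

theorem lam_eq {s : ℝ} {q : ℂ × ℂ} (hb : be q ≠ 0) :
    lam s q = 1 + ((s * chi q : ℝ) : ℂ) * (q.1 / q.2 ^ 2 - 1) := by
  unfold lam gg; push_cast; ring

theorem lam_ne {s : ℝ} (hs0 : 0 ≤ s) (hs1 : s ≤ 1) (q : ℂ × ℂ) : lam s q ≠ 0 := by
  by_cases hb : be q = 0
  · unfold lam gg; rw [chi_zero_of_be hb]; simp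
  · rw [lam_eq hb]
    exact segment_ne hb (mul_nonneg hs0 (chi_nonneg q))
      (mul_le_one₀ hs1 (chi_nonneg q) (chi_le_one q))

theorem lam_cont {q : ℂ × ℂ} (h : q ∉ Cut) : ContinuousAt (lam 1) q := by
  unfold lam
  exact continuousAt_const.add (continuousAt_const.mul
    (((gg_cont h).mul continuous_fst.continuousAt).sub
      (Complex.continuous_ofReal.continuousAt.comp (chi_cont h))))

end Pool.Agent.T9h64.CS
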