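import Pool.Agent.T9h64.CS.Top
import Pool.Agent.T9h64.CS.Curve

/-!
# Polynomials on `ℂ³`: chain rule, singular points, automorphisms
-/

open MvPolynomial

namespace Pool.Agent.T9h64.CS

abbrev M := MvPolynomial (Fin 3) ℂ

/-- singular point of the zero set of `p` (with its reduced structure) -/
def IsSing (p : M) (x : Fin 3 → ℂ) : Prop :=
  eval x p = 0 ∧ ∀ f : M, (∀ y, eval y p = 0 → eval y f = 0) → ∀ i, eval x (pderiv i f) = 0

/-- quasihomogeneous polynomials -/
def IsQH (q : M) : Prop :=
  ∃ (w : Fin 3 → ℕ) (d : ℤ), (∀ i, 0 < w i) ∧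
    ∀ t : ℂ, t ≠ 0 → ∀ x : Fin 3 → ℂ, eval (fun i => t ^ w i * x i) q = t ^ d * eval x q

theorem chain (a : Fin 3 → M) (g : M) (i : Fin 3) :
    pderiv i (aeval a g) = ∑ j, aeval a (pderiv j g) * pderiv i (a j) := by
  induction g using MvPolynomial.induction_on with
  | C c => simp
  | add p q hp hq =>
    simp only [map_add, hp, hq, add_mul, Finset.sum_add_distrib]
  | mul_X p n hp =>
    have h1 : ∀ j, aeval a (pderiv j (p * X n)) =
        aeval a (pderiv j p) * a n + aeval a p * (if j = n then 1 else 0) := by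
      intro j
      rw [Derivation.leibniz, smul_eq_mul, smul_eq_mul, map_add, map_mul, map_mul, aeval_X,
        pderiv_X]
      by_cases h : j = n
      · subst h; simp; ring
      · simp [h, Ne.symm h]; ring
    have h2 : ∑ x, aeval a p * (if x = n then 1 else 0) * pderiv i (a x) =
        aeval a p * pderiv i (a n) := by
      rw [Finset.sum_eq_single n]
      · simp
      · intro b _ hb; simp [hb]
      · intro h; exact absurd (Finset.mem_univ n) h
    have h3 : ∑ x, aeval a (pderiv x p) * a n * pderiv i (a x) =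
        a n * ∑ j, aeval a (pderiv j p) * pderiv i (a j) := by
      rw [Finset.mul_sum]
      refine Finset.sum_congr rfl fun x _ => ?_
      rw [mul_comm (aeval a (pderiv x p)) (a n), mul_assoc]
    have h4 : ∑ j, aeval a (pderiv j (p * X n)) * pderiv i (a j) =
        ∑ x, aeval a (pderiv x p) * a n * pderiv i (a x) +
          ∑ x, aeval a p * (if x = n then 1 else 0) * pderiv i (a x) := by
      rw [← Finset.sum_add_distrib]
      refine Finset.sum_congr rfl fun x _ => ?_
      rw [h1, add_mul]
    rw [h4, h2, h3, map_mul, aeval_X, Derivation.leibniz, hp, smul_eq_mul, smul_eq_mul, add_comm]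

/-- the polynomial map of an endomorphism -/
noncomputable def ph (a : Fin 3 → M) (x : Fin 3 → ℂ) : Fin 3 → ℂ := fun i => eval x (a i)

theorem eval_aeval (a : Fin 3 → M) (x : Fin 3 → ℂ) (f : M) :
    eval x (aeval a f) = eval (ph a x) f := by
  induction f using MvPolynomial.induction_on with
  | C c => simp
  | add p q hp hq => simp only [map_add, hp, hq]
  | mul_X p n hp => simp only [map_mul, hp, aeval_X, eval_X]; rfl

theorem chain_zero {a : Fin 3 → M} {g : M} {x : Fin 3 → ℂ}
    (h : ∀ j, eval (ph a x) (pderiv j g) = 0) (i : Fin 3) : eval x (pderiv i (aeval a g)) = 0 := by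
  rw [chain, map_sum]
  refine Finset.sum_eq_zero fun j _ => ?_
  rw [map_mul, eval_aeval, h j, zero_mul]

theorem ph_ph {a b : Fin 3 → M} (h : ∀ f : M, aeval a (aeval b f) = f) (x : Fin 3 → ℂ) :
    ph b (ph a x) = x := by
  funext i
  have h1 := congrArg (eval x) (h (X i))
  rw [eval_aeval, eval_aeval, eval_X, eval_X] at h1
  exact h1

/-- singular points are mapped to singular points by automorphisms -/
theorem sing_map {a b : Fin 3 → M} (hba : ∀ f : M, aeval b (aeval a f) = f)
    (hab : ∀ f : M, aeval a (aeval b f) = f) {p : M} {x : Fin 3 → ℂ}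
    (hx : IsSing (aeval a p) x) : IsSing p (ph a x) := by
  refine ⟨by rw [← eval_aeval]; exact hx.1, fun f hf i => ?_⟩
  have h1 : ∀ j, eval x (pderiv j (aeval a f)) = 0 := by
    refine hx.2 (aeval a f) fun y hy => ?_
    rw [eval_aeval] at hy ⊢
    exact hf _ hy
  rw [← hba f]
  apply chain_zero
  rw [ph_ph hab x]
  exact h1

/-- singular points of a quasihomogeneous hypersurface are moved to singular points by scaling -/
theorem sing_scale {q : M} {w : Fin 3 → ℕ} {d : ℤ}
    (hq : ∀ t : ℂ, t ≠ 0 → ∀ x : Fin 3 → ℂ, eval (fun i => t ^ w i * x i) q = t ^ d * eval x q)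
    {x : Fin 3 → ℂ} (hx : IsSing q x) {t : ℂ} (ht : t ≠ 0) :
    IsSing q (fun i => t ^ w i * x i) := by
  refine ⟨by rw [hq t ht, hx.1, mul_zero], fun f hf i => ?_⟩
  obtain ⟨a, ha⟩ : ∃ a : Fin 3 → M, a = fun i => C (t ^ w i) * X i := ⟨_, rfl⟩
  have hph : ∀ y, ph a y = fun i => t ^ w i * y i := by
    intro y; funext i; rw [ha]; simp [ph]
  have h1 : eval x (pderiv i (aeval a f)) = 0 := by
    refine hx.2 (aeval a f) (fun y hy => ?_) i
    rw [eval_aeval, hph]
    exact hf _ (by rw [hq t ht, hy, mul_zero])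
  rw [chain, map_sum, Finset.sum_eq_single i] at h1
  · rw [map_mul, eval_aeval, hph, ha] at h1
    have h2 : eval x (pderiv i (C (t ^ w i) * X i : M)) = t ^ w i := by
      rw [pderiv_C_mul, pderiv_X_self]; simp
    rw [h2] at h1
    exact (mul_eq_zero.mp h1).resolve_right (pow_ne_zero _ ht)
  · intro j _ hj
    rw [map_mul, ha, pderiv_C_mul, pderiv_X_of_ne hj, mul_zero, map_zero, mul_zero]
  · intro h; exact absurd (Finset.mem_univ i) h

end Pool.Agent.T9h64.CS
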