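import Pool.Agent.T9h64.CS.Defs

/-!
# The polynomial, its singular point, and the main theorem
-/

open MvPolynomial Filter Topology

namespace Pool.Agent.T9h64.CS

/-- the polynomial -/
noncomputable def P : M :=
  3 * X 1 ^ 2 - X 0 * (4 * X 2 + 2 * (4 + 3 * X 1) * (X 0 * X 2 - 1) +
    X 0 * (X 0 * X 2 - 1) ^ 2 - 4 * (1 + X 1) ^ 3)

theorem eval_P (x : Fin 3 → ℂ) : eval x P = 3 * x 1 ^ 2 - x 0 * W (x 0) (x 1) (x 2) := by
  simp [P, W]

theorem eval_P_iff (x : Fin 3 → ℂ) :
    eval x P = 0 ↔ 3 * x 1 ^ 2 = x 0 * W (x 0) (x 1) (x 2) := by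
  rw [eval_P, sub_eq_zero]

/-- the zero set is homeomorphic to `S` -/
noncomputable def homeo : {x : Fin 3 → ℂ | eval x P = 0} ≃ₜ S where
  toFun x := ⟨(x.1 0, x.1 1, x.1 2), (eval_P_iff x.1).mp x.2⟩
  invFun y := ⟨![y.1.1, y.1.2.1, y.1.2.2], (eval_P_iff _).mpr y.2⟩
  left_inv x := by
    apply Subtype.ext
    funext i
    fin_cases i <;> rfl
  right_inv y := rfl
  continuous_toFun := by
    refine Continuous.subtype_mk ?_ _
    exact ((continuous_apply 0).comp continuous_subtype_val).prodMk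
      (((continuous_apply 1).comp continuous_subtype_val).prodMk
        ((continuous_apply 2).comp continuous_subtype_val))
  continuous_invFun := by
    refine Continuous.subtype_mk ?_ _
    refine continuous_pi fun i => ?_
    fin_cases i
    · exact continuous_fst.comp continuous_subtype_val
    · exact (continuous_fst.comp continuous_snd).comp continuous_subtype_val
    · exact (continuous_snd.comp continuous_snd).comp continuous_subtype_val

theorem P_contractible : ContractibleSpace {x : Fin 3 → ℂ | eval x P = 0} :=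
  haveI := contractible
  homeo.contractibleSpace

/-! ### The gradient -/

theorem pd2 (i : Fin 3) : pderiv i (2 : M) = 0 := (pderiv i).map_natCast 2

theorem pd3 (i : Fin 3) : pderiv i (3 : M) = 0 := (pderiv i).map_natCast 3

theorem pd4 (i : Fin 3) : pderiv i (4 : M) = 0 := (pderiv i).map_natCast 4

theorem pP2 : pderiv (2 : Fin 3) P = -X 0 * (4 + 2 * (4 + 3 * X 1) * X 0 +
      2 * X 0 * (X 0 * X 2 - 1) * X 0) := by
  unfold P
  simp [Derivation.leibniz, Derivation.leibniz_pow, pd2, pd3, pd4]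
  ring

theorem pP1 : pderiv (1 : Fin 3) P =
    6 * X 1 - X 0 * (6 * (X 0 * X 2 - 1) - 12 * (1 + X 1) ^ 2) := by
  unfold P
  simp [Derivation.leibniz, Derivation.leibniz_pow, pd2, pd3, pd4]
  ring

theorem pP0 : pderiv (0 : Fin 3) P = -(4 * X 2 + 2 * (4 + 3 * X 1) * (X 0 * X 2 - 1) +
    X 0 * (X 0 * X 2 - 1) ^ 2 - 4 * (1 + X 1) ^ 3) - X 0 * (2 * (4 + 3 * X 1) * X 2 +
      (X 0 * X 2 - 1) ^ 2 + 2 * X 0 * (X 0 * X 2 - 1) * X 2) := by
  unfold P
  simp [Derivation.leibniz, Derivation.leibniz_pow, pd2, pd3, pd4]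
  ring

theorem d2 (x : Fin 3 → ℂ) : eval x (pderiv 2 P) = -4 * x 0 * U (x 0) (x 1) (x 2) := by
  rw [pP2]
  simp [U]
  ring

theorem d1 (x : Fin 3 → ℂ) : eval x (pderiv 1 P) =
    6 * x 1 - x 0 * (6 * (x 0 * x 2 - 1) - 12 * (1 + x 1) ^ 2) := by
  rw [pP1]
  simp

theorem d0 (x : Fin 3 → ℂ) : eval x (pderiv 0 P) =
    -W (x 0) (x 1) (x 2) - x 0 * (2 * (4 + 3 * x 1) * x 2 + (x 0 * x 2 - 1) ^ 2 +
      2 * x 0 * (x 0 * x 2 - 1) * x 2) := by
  rw [pP0]
  simp [W]

/-- the only singular point -/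
def O : Fin 3 → ℂ := ![0, 0, 3]

theorem sing_unique {x : Fin 3 → ℂ} (hx : IsSing P x) : x = O := by
  obtain ⟨h, hf⟩ := hx
  have g0 := hf P (fun _ h => h) 0
  have g1 := hf P (fun _ h => h) 1
  have g2 := hf P (fun _ h => h) 2
  rw [d0] at g0
  rw [d1] at g1
  rw [d2] at g2
  rw [eval_P_iff] at h
  by_cases hz : x 0 = 0
  · rw [hz] at h g0
    have hY : x 1 = 0 := by
      have : x 1 ^ 2 = 0 := by linear_combination h / 3
      exact pow_eq_zero_iff two_ne_zero |>.mp this
    have hm : x 2 = 3 := by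
      rw [hY] at g0; unfold W at g0; linear_combination -g0 / 4
    funext i
    fin_cases i
    · exact hz
    · exact hY
    · exact hm
  · exfalso
    have hU : U (x 0) (x 1) (x 2) = 0 := by
      have : x 0 * U (x 0) (x 1) (x 2) = 0 := by linear_combination -g2 / 4
      exact (mul_eq_zero.mp this).resolve_left hz
    have hV : V (x 0) (x 1) = 0 := by
      have e : x 0 * V (x 0) (x 1) ^ 2 = 0 := by
        have e1 : 12 * (x 0 * V (x 0) (x 1) ^ 2) - 12 * (x 0 * U (x 0) (x 1) (x 2)) =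
          x 0 ^ 2 * (6 * x 1 - x 0 * (6 * (x 0 * x 2 - 1) - 12 * (1 + x 1) ^ 2)) := by
          unfold U V; ring
        rw [g1, hU] at e1
        linear_combination e1 / 12
      exact pow_eq_zero_iff two_ne_zero |>.mp ((mul_eq_zero.mp e).resolve_left hz)
    have := U_eq h
    rw [hU, hV] at this
    apply hz
    rw [← this]; ring

theorem hasDerivAt_eval (f : M) {c : ℂ → Fin 3 → ℂ} {c' : Fin 3 → ℂ} {t : ℂ}
    (h : ∀ i, HasDerivAt (fun s => c s i) (c' i) t) :
    HasDerivAt (fun s => eval (c s) f) (∑ i, eval (c t) (pderiv i f) * c' i) t := by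
  induction f using MvPolynomial.induction_on with
  | C a => simpa using hasDerivAt_const t a
  | add p q hp hq =>
    have := hp.add hq
    simp only [map_add, add_mul, Finset.sum_add_distrib]
    exact this
  | mul_X p n hp =>
    have h1 := hp.mul (h n)
    have h2 : ∑ i, eval (c t) (pderiv i (p * X n)) * c' i =
        (∑ i, eval (c t) (pderiv i p) * c' i) * c t n + eval (c t) p * c' n := by
      have h3 : ∀ i, eval (c t) (pderiv i (p * X n)) * c' i =
          eval (c t) (pderiv i p) * c' i * c t n + (if i = n then eval (c t) p * c' n else 0) := by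
        intro i
        rw [Derivation.leibniz, smul_eq_mul, smul_eq_mul, map_add, map_mul, map_mul, eval_X,
          pderiv_X]
        by_cases hi : i = n
        · subst hi; simp; ring
        · simp [hi, Ne.symm hi]; ring
      simp only [h3, Finset.sum_add_distrib, Finset.sum_mul]
      simp
    rw [h2]
    have h4 : (fun s => eval (c s) (p * X n)) = fun s => eval (c s) p * c s n := by
      funext s; simp
    rw [h4]
    exact h1

/-- a polynomial that vanishes on a curve has zero derivative along the curve -/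
theorem tangent (f : M) {c : ℂ → Fin 3 → ℂ} {c' : Fin 3 → ℂ} {t : ℂ}
    (h : ∀ i, HasDerivAt (fun s => c s i) (c' i) t)
    (h0 : ∀ᶠ s in 𝓝 t, eval (c s) f = 0) : ∑ i, eval (c t) (pderiv i f) * c' i = 0 := by
  have h1 := hasDerivAt_eval f h
  have h2 : HasDerivAt (fun s => eval (c s) f) 0 t :=
    (hasDerivAt_const t (0 : ℂ)).congr_of_eventuallyEq h0
  exact h1.unique h2

theorem sing_O : IsSing P O := by
  have hO : eval O P = 0 := by rw [eval_P]; simp [O]
  refine ⟨hO, fun f hf => ?_⟩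
  -- the line `z = Y = 0`
  have t1 := tangent f (c := fun s => ![0, 0, s]) (c' := ![0, 0, 1]) (t := 3) (by
    intro i
    fin_cases i
    · exact hasDerivAt_const _ _
    · exact hasDerivAt_const _ _
    · exact hasDerivAt_id _) (Eventually.of_forall fun s => hf _ (by rw [eval_P]; simp))
  -- the curve `(w ^ 2, w)`
  have t2 := tangent f (c := fun w => ![w ^ 3 * (w - 1), 1 / w ^ 3 - 1,
      (w ^ 5 + w ^ 4 + w ^ 3 + w ^ 2 - 1) / w ^ 9]) (c' := ![1, -3, -13]) (t := 1) (by
    intro i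
    fin_cases i
    · have : HasDerivAt (fun w : ℂ => w ^ 3 * (w - 1)) _ 1 :=
        (hasDerivAt_pow 3 (1 : ℂ)).mul ((hasDerivAt_id (1 : ℂ)).sub_const 1)
      exact this.congr_deriv (by show _ = (1 : ℂ); norm_num)
    · have : HasDerivAt (fun w : ℂ => 1 / w ^ 3 - 1) _ 1 :=
        ((hasDerivAt_const (1 : ℂ) (1 : ℂ)).div (hasDerivAt_pow 3 (1 : ℂ)) (by norm_num)).sub_const 1
      exact this.congr_deriv (by show _ = (-3 : ℂ); norm_num)
    · have : HasDerivAt (fun w : ℂ => (w ^ 5 + w ^ 4 + w ^ 3 + w ^ 2 - 1) / w ^ 9) _ 1 :=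
        (((((hasDerivAt_pow 5 (1 : ℂ)).add (hasDerivAt_pow 4 (1 : ℂ))).add
          (hasDerivAt_pow 3 (1 : ℂ))).add (hasDerivAt_pow 2 (1 : ℂ))).sub_const 1).div
          (hasDerivAt_pow 9 (1 : ℂ)) (by norm_num)
      exact this.congr_deriv (by show _ = (-13 : ℂ); norm_num)) (by
    filter_upwards [continuousAt_id.eventually_ne (one_ne_zero : (1 : ℂ) ≠ 0)] with w hw
    have hw0 : w ≠ 0 := hw
    refine hf _ ?_
    rw [eval_P]
    simp only [W]
    show 3 * (1 / w ^ 3 - 1) ^ 2 - w ^ 3 * (w - 1) * (4 * ((w ^ 5 + w ^ 4 + w ^ 3 + w ^ 2 - 1) / w ^ 9)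
      + 2 * (4 + 3 * (1 / w ^ 3 - 1)) * (w ^ 3 * (w - 1) * ((w ^ 5 + w ^ 4 + w ^ 3 + w ^ 2 - 1) / w ^ 9) - 1)
      + w ^ 3 * (w - 1) * (w ^ 3 * (w - 1) * ((w ^ 5 + w ^ 4 + w ^ 3 + w ^ 2 - 1) / w ^ 9) - 1) ^ 2
      - 4 * (1 + (1 / w ^ 3 - 1)) ^ 3) = 0
    field_simp
    ring)
  -- the line `(1 + 2 w, 1 + w)`
  have t3 := tangent f (c := fun w => ![w * (1 + w - w ^ 2), 1 / (1 + w - w ^ 2) - 1,
      (3 - w - 2 * w ^ 2 + w ^ 3) / (1 + w - w ^ 2) ^ 3]) (c' := ![1, -1, -10]) (t := 0) (by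
    have hD : HasDerivAt (fun w : ℂ => 1 + w - w ^ 2) (0 + 1 - _) 0 :=
      ((hasDerivAt_const (0 : ℂ) (1 : ℂ)).add (hasDerivAt_id (0 : ℂ))).sub (hasDerivAt_pow 2 (0 : ℂ))
    intro i
    fin_cases i
    · have : HasDerivAt (fun w : ℂ => w * (1 + w - w ^ 2)) _ 0 := (hasDerivAt_id (0 : ℂ)).mul hD
      exact this.congr_deriv (by show _ = (1 : ℂ); norm_num)
    · have : HasDerivAt (fun w : ℂ => 1 / (1 + w - w ^ 2) - 1) _ 0 :=
        ((hasDerivAt_const (0 : ℂ) (1 : ℂ)).div hD (by norm_num)).sub_const 1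
      exact this.congr_deriv (by show _ = (-1 : ℂ); norm_num)
    · have : HasDerivAt (fun w : ℂ => (3 - w - 2 * w ^ 2 + w ^ 3) / (1 + w - w ^ 2) ^ 3) _ 0 :=
        ((((hasDerivAt_const (0 : ℂ) (3 : ℂ)).sub (hasDerivAt_id (0 : ℂ))).sub
          ((hasDerivAt_pow 2 (0 : ℂ)).const_mul 2)).add (hasDerivAt_pow 3 (0 : ℂ))).div
          (hD.pow 3) (by norm_num)
      exact this.congr_deriv (by show _ = (-10 : ℂ); norm_num)) (by
    have hc : Continuous fun w : ℂ => 1 + w - w ^ 2 := by fun_prop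
    filter_upwards [hc.continuousAt.eventually_ne (x := 0) (y := 0) (by norm_num)] with w hw
    refine hf _ ?_
    rw [eval_P]
    simp only [W]
    show 3 * (1 / (1 + w - w ^ 2) - 1) ^ 2 - w * (1 + w - w ^ 2) *
      (4 * ((3 - w - 2 * w ^ 2 + w ^ 3) / (1 + w - w ^ 2) ^ 3)
      + 2 * (4 + 3 * (1 / (1 + w - w ^ 2) - 1)) *
        (w * (1 + w - w ^ 2) * ((3 - w - 2 * w ^ 2 + w ^ 3) / (1 + w - w ^ 2) ^ 3) - 1)
      + w * (1 + w - w ^ 2) *
        (w * (1 + w - w ^ 2) * ((3 - w - 2 * w ^ 2 + w ^ 3) / (1 + w - w ^ 2) ^ 3) - 1) ^ 2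
      - 4 * (1 + (1 / (1 + w - w ^ 2) - 1)) ^ 3) = 0
    field_simp
    ring)
  have c2 : (![(1 : ℂ) ^ 3 * (1 - 1), 1 / 1 ^ 3 - 1, (1 ^ 5 + 1 ^ 4 + 1 ^ 3 + 1 ^ 2 - 1) / 1 ^ 9] :
      Fin 3 → ℂ) = O := by
    funext i; fin_cases i <;> norm_num [O]
  have c3 : (![(0 : ℂ) * (1 + 0 - 0 ^ 2), 1 / (1 + 0 - 0 ^ 2) - 1,
      (3 - 0 - 2 * 0 ^ 2 + 0 ^ 3) / (1 + 0 - 0 ^ 2) ^ 3] : Fin 3 → ℂ) = O := by
    funext i; fin_cases i <;> norm_num [O]
  have c1 : (![0, 0, 3] : Fin 3 → ℂ) = O := rfl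
  rw [c1] at t1
  rw [c2] at t2
  rw [c3] at t3
  rw [Fin.sum_univ_three] at t1 t2 t3
  simp at t1 t2 t3
  intro i
  fin_cases i
  · show eval O (pderiv 0 f) = 0
    linear_combination (3 * t3 - t2) / 2 + 17 / 2 * t1
  · show eval O (pderiv 1 f) = 0
    linear_combination (t3 - t2) / 2 - 3 / 2 * t1
  · exact t1

/-- the singular point is an ordinary double point -/
theorem hess : (Matrix.of fun i j => eval O (pderiv i (pderiv j P))).det ≠ 0 := by
  have h00 : eval O (pderiv 0 (pderiv 0 P)) = -50 := by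
    rw [pP0]
    simp [Derivation.leibniz, Derivation.leibniz_pow, pd2, pd3, pd4, O]
    norm_num
  have h01 : eval O (pderiv 0 (pderiv 1 P)) = 18 := by
    rw [pP1]
    simp [Derivation.leibniz, Derivation.leibniz_pow, O]
    norm_num
  have h10 : eval O (pderiv 1 (pderiv 0 P)) = 18 := by
    rw [pP0]
    simp [Derivation.leibniz, Derivation.leibniz_pow, pd2, pd3, pd4, O]
    norm_num
  have h11 : eval O (pderiv 1 (pderiv 1 P)) = 6 := by
    rw [pP1]
    simp [Derivation.leibniz, Derivation.leibniz_pow, O]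
  have h02 : eval O (pderiv 0 (pderiv 2 P)) = -4 := by
    rw [pP2]
    simp [Derivation.leibniz, O]
  have h20 : eval O (pderiv 2 (pderiv 0 P)) = -4 := by
    rw [pP0]
    simp [Derivation.leibniz, Derivation.leibniz_pow, pd2, pd3, pd4, O]
  have h12 : eval O (pderiv 1 (pderiv 2 P)) = 0 := by
    rw [pP2]
    simp [Derivation.leibniz, O]
  have h21 : eval O (pderiv 2 (pderiv 1 P)) = 0 := by
    rw [pP1]
    simp [Derivation.leibniz, Derivation.leibniz_pow, O]
  have h22 : eval O (pderiv 2 (pderiv 2 P)) = 0 := by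
    rw [pP2]
    simp [Derivation.leibniz, O]
  rw [Matrix.det_fin_three]
  simp only [Matrix.of_apply]
  rw [h00, h01, h10, h11, h02, h20, h12, h21, h22]
  norm_num

/-- the curve of a point under a quasihomogeneous scaling, as polynomials -/
noncomputable def curve (w : Fin 3 → ℕ) (y : Fin 3 → ℂ) (f : M) : Polynomial ℂ :=
  aeval (fun i => Polynomial.C (y i) * Polynomial.X ^ w i) f

theorem curve_eval (w : Fin 3 → ℕ) (y : Fin 3 → ℂ) (f : M) (t : ℂ) :
    (curve w y f).eval t = eval (fun i => t ^ w i * y i) f := by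
  unfold curve
  induction f using MvPolynomial.induction_on with
  | C c => simp
  | add p q hp hq => simp only [map_add, Polynomial.eval_add, hp, hq]
  | mul_X p n hp =>
    rw [map_mul, Polynomial.eval_mul, hp, map_mul, aeval_X, eval_X, Polynomial.eval_mul,
      Polynomial.eval_C, Polynomial.eval_pow, Polynomial.eval_X]
    ring

theorem not_QH {a b : Fin 3 → M} (hba : ∀ f : M, aeval b (aeval a f) = f)
    (hab : ∀ f : M, aeval a (aeval b f) = f) : ¬ IsQH (aeval a P) := by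
  rintro ⟨w, d, hw, hq⟩
  -- the origin corresponds to the singular point
  have hs0 : IsSing (aeval a P) (ph b O) := by
    refine sing_map (a := b) (b := a) hab hba ?_
    rw [hba]; exact sing_O
  have hx0 : ph b O = 0 := by
    have h1 := sing_unique (sing_map hba hab (sing_scale hq hs0 (two_ne_zero)))
    have h2 := congrArg (ph b) h1
    rw [ph_ph hab] at h2
    funext i
    have h3 : (2 : ℂ) ^ w i * ph b O i = ph b O i := congrFun h2 i
    have h4 : ((2 : ℂ) ^ w i - 1) * ph b O i = 0 := by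
      linear_combination h3
    refine (mul_eq_zero.mp h4).resolve_left ?_
    intro h5
    have h6 : ((2 ^ w i : ℕ) : ℂ) = ((1 : ℕ) : ℂ) := by push_cast; linear_combination h5
    have h7 : 2 ^ w i = 1 := by exact_mod_cast h6
    exact absurd h7 (Nat.one_lt_pow (hw i).ne' (by norm_num)).ne'
  have hO : ph a 0 = O := by rw [← hx0, ph_ph hba]
  -- a point with `z ≠ 0`
  obtain ⟨x, hx⟩ : ∃ x : Fin 3 → ℂ, x = ![1, -2, 3] := ⟨_, rfl⟩
  have hxP : eval x P = 0 := by
    rw [eval_P, hx]; simp [W]; norm_num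
  obtain ⟨y, hy⟩ : ∃ y, y = ph b x := ⟨_, rfl⟩
  have hay : ph a y = x := by rw [hy, ph_ph hba]
  have hΓ : ∀ t i, (curve w y (a i)).eval t = ph a (fun i => t ^ w i * y i) i := by
    intro t i; rw [curve_eval]; rfl
  have h0 : (fun i => (0 : ℂ) ^ w i * y i) = 0 := by
    funext i; rw [zero_pow (hw i).ne', zero_mul]; rfl
  have h1 : (fun i => (1 : ℂ) ^ w i * y i) = y := by
    funext i; rw [one_pow, one_mul]
  have hmem : ∀ t : ℂ, eval (ph a (fun i => t ^ w i * y i)) P = 0 := by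
    intro t
    by_cases ht : t = 0
    · rw [ht, h0, hO]; exact sing_O.1
    · rw [← eval_aeval, hq t ht, eval_aeval, hay, hxP, mul_zero]
  refine no_curve (curve w y (a 0)) (curve w y (a 1)) (curve w y (a 2)) ?_ ?_ ?_ ?_ ?_
  · apply Polynomial.funext
    intro t
    have h2 := (eval_P_iff _).mp (hmem t)
    simp only [Polynomial.eval_mul, Polynomial.eval_add, Polynomial.eval_sub, Polynomial.eval_pow,
      Polynomial.eval_ofNat, Polynomial.eval_one, hΓ]
    rw [W] at h2
    exact h2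
  · rw [hΓ, h0, hO]; rfl
  · rw [hΓ, h0, hO]; rfl
  · intro h
    have h2 := hΓ 1 0
    rw [h, h1, hay, hx] at h2
    simp at h2
  · rintro t ht ⟨e0, e1, e2⟩
    rw [hΓ] at e0 e1 e2
    have h2 : ph a (fun i => t ^ w i * y i) = ph a 0 := by
      rw [hO]
      funext i
      fin_cases i
      · exact e0
      · exact e1
      · exact e2
    have h3 := congrArg (ph b) h2
    rw [ph_ph hab, ph_ph hab] at h3
    have h4 : y = 0 := by
      funext i
      have := congrFun h3 i
      simp only [Pi.zero_apply] at this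
      exact (mul_eq_zero.mp this).resolve_left (pow_ne_zero _ ht)
    rw [h4, hO] at hay
    have := congrFun hay 0
    rw [hx] at this
    simp [O] at this

end Pool.Agent.T9h64.CS
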