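import Pool.Agent.T9h64.CS.Cut

/-!
# The surface is contractible
-/

open Filter Topology ComplexConjugate

namespace Pool.Agent.T9h64.CS

/-- the surface, as a subset of `ℂ × ℂ × ℂ` -/
def S : Set (ℂ × ℂ × ℂ) := {x | 3 * x.2.1 ^ 2 = x.1 * W x.1 x.2.1 x.2.2}

/-- the projection to the plane -/
noncomputable def pr (x : ℂ × ℂ × ℂ) : ℂ × ℂ := (U x.1 x.2.1 x.2.2, V x.1 x.2.1)

theorem pr_cont : Continuous pr := by
  unfold pr U V; fun_prop

theorem Z_pr {x : ℂ × ℂ × ℂ} (hx : x ∈ S) : Z (pr x) = x.1 := U_eq hx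

theorem pr_notMem {x : ℂ × ℂ × ℂ} (hx : x ∈ S) : pr x ∉ Cut := by
  rintro ⟨s, hs, h1, h2⟩
  have h3 : Z (pr x) = 0 := by unfold Z; rw [h1, h2]; ring
  rw [Z_pr hx] at h3
  have h4 : (pr x).1 = 1 := by show U x.1 x.2.1 x.2.2 = 1; rw [h3]; simp [U]
  rw [h4] at h1
  have h5 : (1 : ℝ) = -s ^ 3 := by
    have : ((1 : ℝ) : ℂ) = ((-s ^ 3 : ℝ) : ℂ) := by push_cast; exact h1
    exact_mod_cast this
  have : 0 ≤ s ^ 3 := pow_nonneg hs 3
  linarith

/-- the inverse of the projection, with value `(0, 0, 3)` over the curve -/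
noncomputable def R (q : ℂ × ℂ) : ℂ × ℂ × ℂ := (Z q, RY q, RM q)

theorem R_cont {q : ℂ × ℂ} (h : Z q ≠ 0) : ContinuousAt R q := by
  have hY : ContinuousAt RY q := by
    unfold RY
    exact ((continuous_snd.continuousAt.sub continuousAt_const).div Z_cont.continuousAt h).sub
      continuousAt_const
  have hM : ContinuousAt RM q := by
    unfold RM
    refine ((ContinuousAt.div (ContinuousAt.sub (ContinuousAt.sub (ContinuousAt.div
      (continuousAt_const.mul (continuous_fst.continuousAt.sub continuousAt_const))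
      Z_cont.continuousAt h) continuousAt_const) (continuousAt_const.mul hY))
      Z_cont.continuousAt h).add continuousAt_const).div Z_cont.continuousAt h
  exact Z_cont.continuousAt.prodMk (hY.prodMk hM)

/-- multiply with weights `3, 2` -/
noncomputable def mv (l : ℂ) (q : ℂ × ℂ) : ℂ × ℂ := (l ^ 3 * q.1, l ^ 2 * q.2)

theorem Z_mv (l : ℂ) (q : ℂ × ℂ) : Z (mv l q) = l ^ 6 * Z q := by
  unfold Z mv; ring

open Classical in
/-- the map from the cut plane to the surface -/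
noncomputable def G (q : ℂ × ℂ) : ℂ × ℂ × ℂ :=
  if Z q = 0 then (0, 0, 3) else R (mv (lam 1 q) q)

theorem G_mem (q : ℂ × ℂ) : G q ∈ S := by
  unfold G
  split_ifs with h
  · show 3 * (0 : ℂ) ^ 2 = 0 * _
    ring
  · refine R_mem ?_
    rw [Z_mv]
    exact mul_ne_zero (pow_ne_zero _ (lam_ne zero_le_one le_rfl q)) h

/-- the section through the singular point -/
noncomputable def rho (w : ℂ) : ℂ × ℂ × ℂ :=
  (w ^ 3 * (w - 1), 1 / w ^ 3 - 1, (w ^ 5 + w ^ 4 + w ^ 3 + w ^ 2 - 1) / w ^ 9)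

theorem rho_cont {w : ℂ} (hw : w ≠ 0) : ContinuousAt rho w := by
  unfold rho
  have hp : ∀ n : ℕ, ContinuousAt (fun w : ℂ => w ^ n) w := fun n => (continuous_pow n).continuousAt
  refine ContinuousAt.prodMk (Continuous.continuousAt (by fun_prop)) (ContinuousAt.prodMk ?_ ?_)
  · exact (continuousAt_const.div (hp 3) (pow_ne_zero 3 hw)).sub continuousAt_const
  · exact ContinuousAt.div (Continuous.continuousAt (by fun_prop)) (hp 9) (pow_ne_zero 9 hw)

theorem G_eq_rho {q : ℂ × ℂ} (h1 : chi q = 1) (hu : q.1 ≠ 0) (hv : q.2 ≠ 0) :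
    G q = rho (q.1 ^ 2 / q.2 ^ 3) := by
  have hb : be q ≠ 0 := by
    intro hb; rw [chi_zero_of_be hb] at h1; norm_num at h1
  have hl : lam 1 q = q.1 / q.2 ^ 2 := by
    rw [lam_eq hb, h1]; push_cast; ring
  obtain ⟨w, hw⟩ : ∃ w, w = q.1 ^ 2 / q.2 ^ 3 := ⟨_, rfl⟩
  have hw0 : w ≠ 0 := by rw [hw]; exact div_ne_zero (pow_ne_zero _ hu) (pow_ne_zero _ hv)
  have hm : mv (lam 1 q) q = (w ^ 2, w) := by
    rw [hl, hw]; unfold mv
    ext
    · simp only; field_simp
    · simp only; field_simp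
  have hzw : Z q = q.2 ^ 3 * (w - 1) := by
    rw [hw]; unfold Z; field_simp
  unfold G
  split_ifs with hz
  · rw [hz] at hzw
    have : w = 1 := by
      have := (mul_eq_zero.mp hzw.symm).resolve_left (pow_ne_zero _ hv)
      linear_combination this
    rw [← hw, this]
    unfold rho; norm_num
  · have hw1 : w - 1 ≠ 0 := by
      intro h; apply hz; rw [hzw, h]; ring
    rw [hm, ← hw]
    unfold R rho
    rw [Z_sec, RY_sec hw0 hw1, RM_sec hw0 hw1]

theorem G_cont {q : ℂ × ℂ} (h : q ∉ Cut) : ContinuousAt G q := by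
  by_cases hz : Z q = 0
  · have hb := be_pos_of h hz
    have hu : q.1 ≠ 0 := by
      intro hu; apply hb.ne'; simp [be, hu]
    have hv : q.2 ≠ 0 := by
      intro hv; apply hb.ne'; simp [be, hv]
    have h1 : G =ᶠ[𝓝 q] fun q => rho (q.1 ^ 2 / q.2 ^ 3) := by
      filter_upwards [chi_event_one h hz, continuous_fst.continuousAt.eventually_ne hu,
        continuous_snd.continuousAt.eventually_ne hv] with q' h1 h2 h3
      exact G_eq_rho h1 h2 h3
    refine ContinuousAt.congr ?_ h1.symm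
    have h2 : ContinuousAt (fun q : ℂ × ℂ => q.1 ^ 2 / q.2 ^ 3) q :=
      (continuous_fst.pow 2).continuousAt.div (continuous_snd.pow 3).continuousAt
        (pow_ne_zero 3 hv)
    exact ContinuousAt.comp (g := rho)
      (rho_cont (div_ne_zero (pow_ne_zero _ hu) (pow_ne_zero _ hv))) h2
  · have h1 : G =ᶠ[𝓝 q] fun q => R (mv (lam 1 q) q) := by
      filter_upwards [Z_cont.continuousAt.eventually_ne hz] with q' hq'
      simp [G, hq']
    refine ContinuousAt.congr ?_ h1.symm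
    have h2 : ContinuousAt (fun q => mv (lam 1 q) q) q := by
      unfold mv
      exact ((lam_cont h).pow 3 |>.mul continuous_fst.continuousAt).prodMk
        ((lam_cont h).pow 2 |>.mul continuous_snd.continuousAt)
    refine ContinuousAt.comp (g := R) (R_cont ?_) h2
    rw [Z_mv]
    exact mul_ne_zero (pow_ne_zero _ (lam_ne zero_le_one le_rfl q)) hz

/-! ### The homotopy from the identity to `G ∘ pr` -/

/-- first parameter -/
noncomputable def e1 (s : ℝ) (x : ℂ × ℂ × ℂ) : ℂ := s * gg (pr x) / 2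

/-- second parameter -/
noncomputable def e2 (s : ℝ) (x : ℂ × ℂ × ℂ) : ℂ :=
  s * gg (pr x) * ((1 + x.2.1) ^ 2 - (x.1 * x.2.2 - 1) / 2)

/-- `δ` -/
noncomputable def dd (s : ℝ) (x : ℂ × ℂ × ℂ) : ℂ := x.2.1 * e1 s x + x.1 * e2 s x

theorem lam_pr (s : ℝ) (x : ℂ × ℂ × ℂ) : lam s (pr x) = 1 - x.1 * dd s x := by
  have h := V_sq_sub x.1 x.2.1 x.2.2
  by_cases hb : be (pr x) = 0
  · unfold dd e1 e2 lam gg; rw [chi_zero_of_be hb]; simp
  · have hv : (pr x).2 ≠ 0 := by
      intro hv; apply hb; simp [be, hv]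
    have h1 : (chi (pr x) : ℂ) = gg (pr x) * (pr x).2 ^ 2 := by
      unfold gg; field_simp
    unfold lam dd e1 e2
    rw [h1]
    show 1 + (s : ℂ) * (gg (pr x) * U x.1 x.2.1 x.2.2 - gg (pr x) * V x.1 x.2.1 ^ 2) = _
    linear_combination (-(s : ℂ) * gg (pr x)) * h

/-- the homotopy -/
noncomputable def Hm (s : ℝ) (x : ℂ × ℂ × ℂ) : ℂ × ℂ × ℂ :=
  (lam s (pr x) ^ 6 * x.1, TY x.1 x.2.1 (dd s x) (lam s (pr x)) / lam s (pr x) ^ 6,
    TM x.1 x.2.1 x.2.2 (e1 s x) (e2 s x) (dd s x) (lam s (pr x)) / lam s (pr x) ^ 18)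

theorem Hm_mem {s : ℝ} (hs0 : 0 ≤ s) (hs1 : s ≤ 1) {x : ℂ × ℂ × ℂ} (hx : x ∈ S) :
    Hm s x ∈ S :=
  theta_mem (lam_ne hs0 hs1 _) hx rfl (lam_pr s x)

theorem Hm_zero (x : ℂ × ℂ × ℂ) : Hm 0 x = x := by
  have h1 : e1 0 x = 0 := by simp [e1]
  have h2 : e2 0 x = 0 := by simp [e2]
  have h3 : dd 0 x = 0 := by unfold dd; rw [h1, h2]; ring
  have h4 : lam 0 (pr x) = 1 := by simp [lam]
  unfold Hm
  rw [h1, h2, h3, h4]
  ext
  · simp
  · simp [TY]
  · simp [TM]

theorem Hm_one {x : ℂ × ℂ × ℂ} (hx : x ∈ S) : Hm 1 x = G (pr x) := by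
  have hl0 := lam_ne zero_le_one le_rfl (pr x)
  have hl := lam_pr 1 x
  have hU := U_theta (d1 := e1 1 x) (d2 := e2 1 x) hl0 hx rfl hl
  have hV := V_theta (Y := x.2.1) hl0 hl
  unfold G
  rw [Z_pr hx]
  split_ifs with hz
  · have hY : x.2.1 = 0 := by
      have h0 : 3 * x.2.1 ^ 2 = x.1 * W x.1 x.2.1 x.2.2 := hx
      rw [hz] at h0
      have : x.2.1 ^ 2 = 0 := by linear_combination h0 / 3
      exact pow_eq_zero_iff two_ne_zero |>.mp this
    have hp : pr x = (1, 1) := by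
      unfold pr U V; rw [hz]; simp
    have hc : chi (1, 1) = 1 := by
      apply chi_eq_one
      simp [Z, be]
    have h1 : e1 1 x = 1 / 2 := by
      unfold e1 gg; rw [hp, hc]; simp
    have h3 : dd 1 x = 0 := by unfold dd; rw [hz, hY]; ring
    have h4 : lam 1 (pr x) = 1 := by rw [hl, h3]; ring
    unfold Hm
    rw [h1, h3, h4, hz, hY]
    ext
    · simp
    · simp [TY]
    · simp only [TM, W]; ring
  · have hz6 : lam 1 (pr x) ^ 6 * x.1 ≠ 0 := mul_ne_zero (pow_ne_zero _ hl0) hz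
    have hmem : Hm 1 x ∈ S := Hm_mem zero_le_one le_rfl hx
    have e3 := RY_of hz6 hmem
    have e4 := RM_of hz6 hmem
    have e5 : (U (Hm 1 x).1 (Hm 1 x).2.1 (Hm 1 x).2.2, V (Hm 1 x).1 (Hm 1 x).2.1) =
        mv (lam 1 (pr x)) (pr x) := Prod.ext hU hV
    have e6 : Z (mv (lam 1 (pr x)) (pr x)) = (Hm 1 x).1 := by
      rw [Z_mv, Z_pr hx]; rfl
    rw [← e5] at e6
    rw [← e5]
    exact (Prod.ext e6 (Prod.ext e3 e4)).symm

theorem TY_cont {α : Type*} [TopologicalSpace α] {a : α} {z Y d l : α → ℂ}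
    (hz : ContinuousAt z a) (hY : ContinuousAt Y a) (hd : ContinuousAt d a)
    (hl : ContinuousAt l a) : ContinuousAt (fun x => TY (z x) (Y x) (d x) (l x)) a := by
  unfold TY; fun_prop

theorem TQ_cont {α : Type*} [TopologicalSpace α] {a : α} {Y d l : α → ℂ}
    (hY : ContinuousAt Y a) (hd : ContinuousAt d a)
    (hl : ContinuousAt l a) : ContinuousAt (fun x => TQ (Y x) (d x) (l x)) a := by
  unfold TQ; fun_prop

theorem W_cont {α : Type*} [TopologicalSpace α] {a : α} {z Y m : α → ℂ}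
    (hz : ContinuousAt z a) (hY : ContinuousAt Y a) (hm : ContinuousAt m a) :
    ContinuousAt (fun x => W (z x) (Y x) (m x)) a := by
  unfold W; fun_prop

theorem TM_cont {α : Type*} [TopologicalSpace α] {a : α} {z Y m d1 d2 d l : α → ℂ}
    (hz : ContinuousAt z a) (hY : ContinuousAt Y a) (hm : ContinuousAt m a)
    (h1 : ContinuousAt d1 a) (h2 : ContinuousAt d2 a) (hd : ContinuousAt d a)
    (hl : ContinuousAt l a) :
    ContinuousAt (fun x => TM (z x) (Y x) (m x) (d1 x) (d2 x) (d x) (l x)) a := by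
  have hQ := TQ_cont hY hd hl
  have hW := W_cont hz hY hm
  unfold TM; fun_prop

theorem Hm_cont {s : ℝ} (hs0 : 0 ≤ s) (hs1 : s ≤ 1) {x : ℂ × ℂ × ℂ} (hx : x ∈ S) :
    ContinuousAt (fun p : ℝ × (ℂ × ℂ × ℂ) => Hm p.1 p.2) (s, x) := by
  have hg : ContinuousAt (fun p : ℝ × (ℂ × ℂ × ℂ) => gg (pr p.2)) (s, x) :=
    ContinuousAt.comp (g := gg) (f := fun p : ℝ × (ℂ × ℂ × ℂ) => pr p.2)
      (gg_cont (pr_notMem hx)) (pr_cont.comp continuous_snd).continuousAt
  have hs : ContinuousAt (fun p : ℝ × (ℂ × ℂ × ℂ) => (p.1 : ℂ)) (s, x) :=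
    (Complex.continuous_ofReal.comp continuous_fst).continuousAt
  have h1 : ContinuousAt (fun p : ℝ × (ℂ × ℂ × ℂ) => e1 p.1 p.2) (s, x) := by
    unfold e1; exact (hs.mul hg).div_const 2
  have h2 : ContinuousAt (fun p : ℝ × (ℂ × ℂ × ℂ) => e2 p.1 p.2) (s, x) := by
    unfold e2
    refine (hs.mul hg).mul ?_
    exact Continuous.continuousAt (by fun_prop)
  have h3 : ContinuousAt (fun p : ℝ × (ℂ × ℂ × ℂ) => dd p.1 p.2) (s, x) := by
    unfold dd
    exact ((Continuous.continuousAt (by fun_prop)).mul h1).add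
      ((Continuous.continuousAt (by fun_prop)).mul h2)
  have h4 : ContinuousAt (fun p : ℝ × (ℂ × ℂ × ℂ) => lam p.1 (pr p.2)) (s, x) := by
    simp only [lam_pr]
    exact continuousAt_const.sub ((Continuous.continuousAt (by fun_prop)).mul h3)
  have hl0 := lam_ne hs0 hs1 (pr x)
  have hz : ContinuousAt (fun p : ℝ × (ℂ × ℂ × ℂ) => p.2.1) (s, x) :=
    Continuous.continuousAt (by fun_prop)
  have hY : ContinuousAt (fun p : ℝ × (ℂ × ℂ × ℂ) => p.2.2.1) (s, x) :=
    Continuous.continuousAt (by fun_prop)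
  have hm : ContinuousAt (fun p : ℝ × (ℂ × ℂ × ℂ) => p.2.2.2) (s, x) :=
    Continuous.continuousAt (by fun_prop)
  unfold Hm
  refine ContinuousAt.prodMk ((h4.pow 6).mul hz) (ContinuousAt.prodMk ?_ ?_)
  · exact (TY_cont hz hY h3 h4).div (h4.pow 6) (pow_ne_zero _ hl0)
  · exact (TM_cont hz hY hm h1 h2 h3 h4).div (h4.pow 18) (pow_ne_zero _ hl0)

/-! ### The cut plane is contractible -/

/-- star-shaped model of the cut plane -/
def Star : Set (ℂ × ℂ) := {q | ¬ ∃ s : ℝ, 0 ≤ s ∧ q.1 = -(s : ℂ) ∧ q.2 = s}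

theorem star_convex : StarConvex ℝ ((1, -1) : ℂ × ℂ) Star := by
  rw [starConvex_iff_segment_subset]
  intro q hq p hp
  rw [segment_eq_image'] at hp
  obtain ⟨t, ⟨ht0, ht1⟩, rfl⟩ := hp
  rintro ⟨s, hs, h1, h2⟩
  apply hq
  simp only [Prod.fst_add, Prod.snd_add, Prod.smul_fst, Prod.smul_snd, Prod.fst_sub,
    Prod.snd_sub, Complex.real_smul] at h1 h2
  have ht : t ≠ 0 := by
    rintro rfl
    have : ((-1 : ℝ) : ℂ) = (s : ℂ) := by
      push_cast
      rw [Complex.ofReal_zero] at h2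
      linear_combination h2
    have : (-1 : ℝ) = s := by exact_mod_cast this
    linarith
  have htC : (t : ℂ) ≠ 0 := by exact_mod_cast ht
  refine ⟨(s + (1 - t)) / t, by apply div_nonneg <;> linarith, ?_, ?_⟩
  · push_cast
    field_simp
    linear_combination h1
  · push_cast
    field_simp
    linear_combination h2

/-- multiply by a power of the norm -/
noncomputable def nr (r : ℝ) (a : ℂ) : ℂ := a * ((‖a‖ ^ r : ℝ) : ℂ)

theorem nr_norm {r : ℝ} (hr : r + 1 ≠ 0) (a : ℂ) : ‖nr r a‖ = ‖a‖ ^ (r + 1) := by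
  unfold nr
  rw [norm_mul, Complex.norm_real, Real.norm_of_nonneg (Real.rpow_nonneg (norm_nonneg a) r)]
  by_cases ha : a = 0
  · subst ha; rw [norm_zero, zero_mul, Real.zero_rpow hr]
  · rw [Real.rpow_add_one (norm_ne_zero_iff.mpr ha)]; ring

theorem nr_cont {r : ℝ} (hr : 0 < r + 1) : Continuous (nr r) := by
  rw [continuous_iff_continuousAt]
  intro a
  by_cases ha : a = 0
  · subst ha
    have h0 : nr r 0 = 0 := by simp [nr]
    rw [ContinuousAt, h0, tendsto_zero_iff_norm_tendsto_zero]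
    have h1 : (fun a => ‖nr r a‖) = fun a : ℂ => ‖a‖ ^ (r + 1) := by
      funext a; exact nr_norm hr.ne' a
    rw [h1]
    have h2 : ContinuousAt (fun a : ℂ => ‖a‖ ^ (r + 1)) 0 :=
      continuous_norm.continuousAt.rpow_const (Or.inr hr.le)
    rw [ContinuousAt, norm_zero, Real.zero_rpow hr.ne'] at h2
    exact h2
  · unfold nr
    exact continuousAt_id.mul (Complex.continuous_ofReal.continuousAt.comp
      (continuous_norm.continuousAt.rpow_const (Or.inl (norm_ne_zero_iff.mpr ha))))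

/-- to the star-shaped model -/
noncomputable def ps (q : ℂ × ℂ) : ℂ × ℂ := (nr (-(2 / 3)) q.1, nr (-(1 / 2)) q.2)

/-- back from the star-shaped model -/
noncomputable def qs (q : ℂ × ℂ) : ℂ × ℂ :=
  (q.1 * ((‖q.1‖ ^ 2 : ℝ) : ℂ), q.2 * ((‖q.2‖ : ℝ) : ℂ))

theorem ps_cont : Continuous ps := by
  unfold ps
  exact ((nr_cont (by norm_num)).comp continuous_fst).prodMk
    ((nr_cont (by norm_num)).comp continuous_snd)

theorem qs_cont : Continuous qs := by
  unfold qs
  exact (continuous_fst.mul (Complex.continuous_ofReal.comp (continuous_fst.norm.pow 2))).prodMk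
    (continuous_snd.mul (Complex.continuous_ofReal.comp continuous_snd.norm))

theorem qs_ps (q : ℂ × ℂ) : qs (ps q) = q := by
  obtain ⟨a, b⟩ := q
  unfold qs ps
  ext
  · simp only
    rw [nr_norm (by norm_num)]
    by_cases ha : a = 0
    · subst ha; simp [nr]
    · have hn : 0 < ‖a‖ := norm_pos_iff.mpr ha
      unfold nr
      rw [mul_assoc, ← Complex.ofReal_mul, ← Real.rpow_natCast, ← Real.rpow_mul hn.le,
        ← Real.rpow_add hn]
      norm_num
  · simp only
    rw [nr_norm (by norm_num)]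
    by_cases hb : b = 0
    · subst hb; simp [nr]
    · have hn : 0 < ‖b‖ := norm_pos_iff.mpr hb
      unfold nr
      rw [mul_assoc, ← Complex.ofReal_mul, ← Real.rpow_add hn]
      norm_num

theorem ps_mem {q : ℂ × ℂ} (h : q ∉ Cut) : ps q ∈ Star := by
  rintro ⟨s, hs, h1, h2⟩
  apply h
  rw [← qs_ps q]
  refine ⟨s, hs, ?_, ?_⟩
  · show (ps q).1 * ((‖(ps q).1‖ ^ 2 : ℝ) : ℂ) = _
    rw [h1, norm_neg, Complex.norm_real, Real.norm_of_nonneg hs]
    push_cast; ring
  · show (ps q).2 * ((‖(ps q).2‖ : ℝ) : ℂ) = _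
    rw [h2, Complex.norm_real, Real.norm_of_nonneg hs]
    ring

theorem qs_notMem {q : ℂ × ℂ} (h : q ∈ Star) : qs q ∉ Cut := by
  rintro ⟨s, hs, h1, h2⟩
  apply h
  have h1' : q.1 * ((‖q.1‖ ^ 2 : ℝ) : ℂ) = -(s : ℂ) ^ 3 := h1
  have h2' : q.2 * ((‖q.2‖ : ℝ) : ℂ) = (s : ℂ) ^ 2 := h2
  have n1 : ‖q.1‖ = s := by
    have := congrArg norm h1'
    simp only [norm_mul, norm_neg, norm_pow, Complex.norm_real, norm_norm,
      Complex.ofReal_pow, Real.norm_of_nonneg hs] at this
    have h3 : ‖q.1‖ ^ 3 = s ^ 3 := by linear_combination this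
    exact (pow_left_inj₀ (norm_nonneg _) hs (by norm_num)).mp h3
  have n2 : ‖q.2‖ = s := by
    have := congrArg norm h2'
    simp only [norm_mul, norm_pow, Complex.norm_real, norm_norm,
      Real.norm_of_nonneg hs] at this
    have h3 : ‖q.2‖ ^ 2 = s ^ 2 := by linear_combination this
    exact (pow_left_inj₀ (norm_nonneg _) hs (by norm_num)).mp h3
  refine ⟨s, hs, ?_, ?_⟩
  · by_cases h0 : s = 0
    · rw [h0, norm_eq_zero] at n1; rw [n1, h0]; simp
    · have h0C : ((s : ℂ)) ^ 2 ≠ 0 := by exact_mod_cast pow_ne_zero 2 h0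
      rw [n1] at h1'
      apply mul_right_cancel₀ h0C
      push_cast at h1'
      linear_combination h1'
  · by_cases h0 : s = 0
    · rw [h0, norm_eq_zero] at n2; rw [n2, h0]; simp
    · have h0C : (s : ℂ) ≠ 0 := by exact_mod_cast h0
      rw [n2] at h2'
      apply mul_right_cancel₀ h0C
      linear_combination h2'

instance star_contractible : ContractibleSpace Star :=
  star_convex.contractibleSpace ⟨(1, -1), fun ⟨s, hs, _, h2⟩ => by
    have : ((-1 : ℝ) : ℂ) = (s : ℂ) := by push_cast; exact h2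
    have : (-1 : ℝ) = s := by exact_mod_cast this
    linarith⟩

/-- the surface is contractible -/
theorem contractible : ContractibleSpace S := by
  rw [contractible_iff_id_nullhomotopic]
  -- the map `G ∘ pr`
  let f1 : C(S, Star) := ⟨fun x => ⟨ps (pr x), ps_mem (pr_notMem x.2)⟩,
    (ps_cont.comp (pr_cont.comp continuous_subtype_val)).subtype_mk _⟩
  let f2 : C(Star, S) := ⟨fun q => ⟨G (qs q), G_mem _⟩, by
    refine Continuous.subtype_mk ?_ _
    rw [continuous_iff_continuousAt]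
    intro q
    exact ContinuousAt.comp (g := G) (f := fun q : Star => qs q) (G_cont (qs_notMem q.2))
      (qs_cont.comp continuous_subtype_val).continuousAt⟩
  have hnull : (f2.comp f1).Nullhomotopic := by
    obtain ⟨y, hy⟩ := (contractible_iff_id_nullhomotopic Star).mp inferInstance
    refine ⟨f2 y, ?_⟩
    have h1 : (f2.comp ((ContinuousMap.id Star).comp f1)).Homotopic
        (f2.comp ((ContinuousMap.const Star y).comp f1)) :=
      (ContinuousMap.Homotopic.refl f2).comp (hy.comp (ContinuousMap.Homotopic.refl f1))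
    exact h1
  have hhom : (ContinuousMap.id S).Homotopic (f2.comp f1) := by
    refine ⟨⟨⟨fun p => ⟨Hm p.1 p.2, Hm_mem p.1.2.1 p.1.2.2 p.2.2⟩, ?_⟩, ?_, ?_⟩⟩
    · refine Continuous.subtype_mk ?_ _
      rw [continuous_iff_continuousAt]
      intro p
      exact ContinuousAt.comp (g := fun p : ℝ × (ℂ × ℂ × ℂ) => Hm p.1 p.2)
        (f := fun p : unitInterval × S => ((p.1 : ℝ), (p.2 : ℂ × ℂ × ℂ)))
        (Hm_cont p.1.2.1 p.1.2.2 p.2.2)
        (((continuous_subtype_val.comp continuous_fst).prodMk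
          (continuous_subtype_val.comp continuous_snd)).continuousAt)
    · intro x
      apply Subtype.ext
      exact Hm_zero x
    · intro x
      apply Subtype.ext
      show Hm 1 x = G (qs (ps (pr x)))
      rw [qs_ps]
      exact Hm_one x.2
  obtain ⟨y, hy⟩ := hnull
  exact ⟨y, hhom.trans hy⟩

end Pool.Agent.T9h64.CS
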